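import Pool.Agent.H51.Cayley.Random

/-!
# Disproof of the modified Cayley conjecture

The definitions (lattice polytope, `h*`-series, degree, Cayley polytope) are in
`Pool.Agent.H51.Cayley.Defs`.

For every real `c < 4` and every real `b` there are `s ≥ 1`, `d > c s + b` and a `d`-dimensional
lattice polytope of degree `s` which is not a Cayley polytope of `d + 1 - ⌊c s + b⌋` or more
lattice polytopes.  Question Q1 is the case `c = 17/6`, `b = -2/3`, since
`(17 s - 4)/6 = (17/6) s + (-2/3)`; the negated form of Q1 is the corollary `q1_negated` below.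

The polytopes are lattice simplices attached to random binary codes with an even-weight
parity coordinate: barycentric coordinates of lattice points are half-integral, the degree is half
the maximal weight, and Cayley parts are supports of words of the dual code.
-/

open Finset Pool.Agent.H51.Cayley

namespace Pool.Agent.Results.MP_c7d842_co.CayleyDisproof

lemma exists_m (D : ℕ) (ε θ b : ℝ) (hε : 0 < ε) (hθ : 0 < θ) (hb : 0 ≤ b) :
    ∃ m : ℕ, 2 ≤ m ∧ 2 * (m ^ 2 + 1) ^ D ≤ 2 ^ m ∧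
      (2 : ℝ) ^ (m + 1) < Real.exp (ε ^ 2 * ((m ^ 2 : ℕ) : ℝ) / 2) ∧
      2 * ((m : ℝ) + 1) + b < θ / 8 * ((m ^ 2 : ℕ) : ℝ) := by
  have h1 := tendsto_pow_const_div_const_pow_of_one_lt (2 * D) (r := (2 : ℝ)) (by norm_num)
  have hpos : (0 : ℝ) < 1 / (2 * 2 ^ D) := by positivity
  have h2 := (h1.eventually (gt_mem_nhds hpos))
  obtain ⟨M, hM⟩ := Filter.eventually_atTop.1 h2
  obtain ⟨M2, hM2⟩ := exists_nat_ge (8 * (5 + b) / θ)
  obtain ⟨M3, hM3⟩ := exists_nat_ge (4 / ε ^ 2)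
  set m := M + M2 + M3 + 2 with hm
  have hm2 : 2 ≤ m := by omega
  have hm2' : (2 : ℝ) ≤ m := by exact_mod_cast hm2
  refine ⟨m, hm2, ?_, ?_, ?_⟩
  · have h3 := hM m (by omega)
    rw [div_lt_div_iff₀ (by positivity) (by positivity), one_mul] at h3
    have h4 : (m ^ 2 + 1) ^ D ≤ 2 ^ D * m ^ (2 * D) := by
      rw [pow_mul, ← mul_pow]
      exact Nat.pow_le_pow_left (by nlinarith) D
    have h5 : 2 * (2 ^ D * m ^ (2 * D)) ≤ 2 ^ m := by
      have : ((2 * (2 ^ D * m ^ (2 * D)) : ℕ) : ℝ) ≤ ((2 ^ m : ℕ) : ℝ) := by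
        push_cast
        nlinarith
      exact_mod_cast this
    omega
  · have h3 : (m : ℝ) + 1 ≤ ε ^ 2 * ((m ^ 2 : ℕ) : ℝ) / 2 := by
      have h4 : 4 / ε ^ 2 ≤ m := hM3.trans (by rw [hm]; push_cast; linarith [Nat.cast_nonneg (α := ℝ) M, Nat.cast_nonneg (α := ℝ) M2])
      rw [div_le_iff₀ (by positivity)] at h4
      push_cast
      nlinarith
    have h5 : (2 : ℝ) ^ (m + 1) < Real.exp 1 ^ (m + 1) := by
      apply pow_lt_pow_left₀ _ (by norm_num) (Nat.succ_ne_zero m)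
      have := Real.exp_one_gt_d9
      linarith
    refine h5.trans_le ?_
    rw [← Real.exp_nat_mul, mul_one, Real.exp_le_exp]
    push_cast at h3 ⊢
    exact h3
  · have h4 : 8 * (5 + b) / θ ≤ m := hM2.trans (by rw [hm]; push_cast; linarith [Nat.cast_nonneg (α := ℝ) M, Nat.cast_nonneg (α := ℝ) M3])
    rw [div_le_iff₀ hθ] at h4
    push_cast
    nlinarith

/-- For every `c < 4` and every `b` there are `s ≥ 1`, `d > c s + b` and a `d`-dimensional lattice
polytope of degree `s` that is not a Cayley polytope of `d + 1 - ⌊c s + b⌋` or more lattice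
polytopes. -/
theorem result (c b : ℝ) (hc : c < 4) :
    ∃ (s d : ℕ) (P : Set (Fin d → ℝ)),
      1 ≤ s ∧ c * (s : ℝ) + b < (d : ℝ) ∧
      IsLatticePolytope P ∧ affineSpan ℝ P = ⊤ ∧ HasDegree P s ∧
      ∀ r : ℕ, (d : ℤ) + 1 - ⌊c * (s : ℝ) + b⌋ ≤ (r : ℤ) → ¬ IsCayleyPolytope P r := by
  classical
  set c1 := max c 1 with hc1
  set b1 := max b 0 with hb1
  have hc1' : c1 < 4 := max_lt hc (by norm_num)
  have hc1'' : 1 ≤ c1 := le_max_right _ _
  have hb1' : 0 ≤ b1 := le_max_right _ _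
  set θ := 4 - c1 with hθ
  have hθpos : 0 < θ := by linarith
  have hθle : θ ≤ 3 := by linarith
  set ε := θ / 16 with hε
  have hεpos : 0 < ε := by positivity
  obtain ⟨D, hD⟩ := exists_nat_ge (16 / θ)
  have hDpos : 0 < (D : ℝ) := lt_of_lt_of_le (by positivity) hD
  have hD' : 1 / (D : ℝ) ≤ θ / 16 := by
    rw [div_le_div_iff₀ hDpos (by norm_num), one_mul]
    rw [div_le_iff₀ hθpos] at hD
    linarith
  obtain ⟨m, hm2, h1, h2, h3⟩ := exists_m D ε θ b1 hεpos hθpos hb1'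
  have hN1 : 1 ≤ m ^ 2 := Nat.one_le_pow _ _ (by omega)
  generalize m ^ 2 = N at h1 h2 h3 hN1
  obtain ⟨A', hA1, hA2⟩ := exists_good (m := m) (N := N) D ε hεpos hN1 h1 h2
  set A : Fin m → Fin N → ZMod 2 := fun a b => A' b a with hA
  set s := Finset.univ.sup (ht A) with hs
  have hwt : ∀ u, (wt A u : ℝ) ≤ (m + 1) + (1 + ε) * N / 2 := by
    intro u
    have hv1 : ∀ x : ZMod 2, ((x.val : ℕ) : ℝ) ≤ 1 := by
      intro x
      have : x.val ≤ 1 := Nat.lt_succ_iff.1 (ZMod.val_lt x)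
      exact_mod_cast this
    have h4 : (wt A u : ℝ) = ((cwd A u none).val : ℝ) + (∑ a, ((u a).val : ℝ)
        + ∑ b, ((dot u (A' b)).val : ℝ)) := by
      rw [wt, Fintype.sum_option, Fintype.sum_sum_type]
      push_cast
      rfl
    have h5 : ∑ a, ((u a).val : ℝ) ≤ m := by
      calc ∑ a, ((u a).val : ℝ) ≤ ∑ _a : Fin m, (1 : ℝ) := Finset.sum_le_sum fun a _ => hv1 _
        _ = m := by simp
    rw [h4]
    have := hA1 u
    have := hv1 (cwd A u none)
    linarith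
  have hs2 : 2 * (s : ℝ) ≤ (m + 1) + (1 + ε) * N / 2 := by
    obtain ⟨u₀, -, hu₀⟩ := Finset.exists_mem_eq_sup (Finset.univ : Finset (Fin m → ZMod 2))
      ⟨0, Finset.mem_univ _⟩ (ht A)
    have h4 := hwt u₀
    rw [← two_ht] at h4
    rw [hs, hu₀]
    push_cast at h4
    exact h4
  have hs1 : 1 ≤ s := by
    let u : Fin m → ZMod 2 := Pi.single ⟨0, by omega⟩ 1
    have h4 : 1 ≤ wt A u := by
      have h5 : (cwd A u (some (Sum.inl ⟨0, by omega⟩))).val ≤ wt A u :=
        Finset.single_le_sum (f := fun w => (cwd A u w).val) (fun _ _ => Nat.zero_le _)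
          (Finset.mem_univ _)
      have h6 : (cwd A u (some (Sum.inl ⟨0, by omega⟩))).val = 1 := by
        simp only [cwd, u, Pi.single_eq_same]
        decide
      omega
    have h5 := two_ht A u
    have h6 : ht A u ≤ s := Finset.le_sup (f := ht A) (Finset.mem_univ u)
    omega
  have hs0 : (0 : ℝ) ≤ s := Nat.cast_nonneg s
  have hcs : c * (s : ℝ) + b ≤ c1 * s + b1 :=
    add_le_add (mul_le_mul_of_nonneg_right (le_max_left _ _) hs0) (le_max_left _ _)
  have hN0 : (0 : ℝ) ≤ N := Nat.cast_nonneg N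
  have hcoef : c1 * (1 + ε) / 4 ≤ 1 - 3 * θ / 16 := by
    have : c1 = 4 - θ := by rw [hθ]; ring
    rw [this, hε]
    nlinarith [sq_nonneg θ]
  have hmain : c1 * (s : ℝ) + b1 ≤ 2 * (m + 1) + (1 - 3 * θ / 16) * N + b1 := by
    have h4 : c1 * (2 * (s : ℝ)) ≤ c1 * ((m + 1) + (1 + ε) * N / 2) :=
      mul_le_mul_of_nonneg_left hs2 (by linarith)
    have h5 : c1 * (1 + ε) / 4 * N ≤ (1 - 3 * θ / 16) * N :=
      mul_le_mul_of_nonneg_right hcoef hN0
    have h6 : c1 * ((m : ℝ) + 1) ≤ 4 * (m + 1) :=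
      mul_le_mul_of_nonneg_right hc1'.le (by positivity)
    linarith
  refine ⟨s, m + N, simp' A, hs1, ?_, isLatticePolytope_simp' A, affineSpan_simp' A,
    hasDegree_simp' A, ?_⟩
  · push_cast
    have hθN : 0 ≤ θ * (N : ℝ) := by positivity
    have hm0 : (0 : ℝ) ≤ m := Nat.cast_nonneg m
    nlinarith
  · intro r hr hcay
    have hb := parts_bound A D (fun B hB hz => hA2 B hB (by
      ext a
      rw [Finset.sum_apply]
      exact hz a)) r hcay
    have hb' : (D : ℝ) * r ≤ D * (m + 1) + N := by exact_mod_cast hb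
    have hr2 : (r : ℝ) ≤ (m + 1) + 1 / D * N := by
      have h4 : (D : ℝ) * r ≤ D * ((m + 1) + 1 / D * N) := by
        rw [mul_add, ← mul_assoc, mul_one_div_cancel hDpos.ne', one_mul]
        exact hb'
      exact le_of_mul_le_mul_left h4 hDpos
    have hr3 : ((m : ℝ) + (N : ℝ)) + 1 - (c * (s : ℝ) + b) ≤ r := by
      have h4 : (((m + N : ℕ) : ℤ) : ℝ) + 1 - ((⌊c * (s : ℝ) + b⌋ : ℤ) : ℝ) ≤ ((r : ℤ) : ℝ) := by
        exact_mod_cast hr
      have h5 := Int.floor_le (c * (s : ℝ) + b)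
      push_cast at h4 ⊢
      linarith
    have h6 : 1 / (D : ℝ) * N ≤ θ / 16 * N := mul_le_mul_of_nonneg_right hD' hN0
    nlinarith

/-- The negated form of Q1 (the case `c = 17/6`, `b = -2/3` of `result`). -/
theorem q1_negated :
    ∃ (s d : ℕ) (P : Set (Fin d → ℝ)),
      1 ≤ s ∧ (17 * (s : ℝ) - 4) / 6 < (d : ℝ) ∧
      IsLatticePolytope P ∧ affineSpan ℝ P = ⊤ ∧ HasDegree P s ∧
      ∀ r : ℕ, (d : ℤ) + 1 - ⌊(17 * (s : ℝ) - 4) / 6⌋ ≤ (r : ℤ) → ¬ IsCayleyPolytope P r := by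
  obtain ⟨s, d, P, h1, h2, h3, h4, h5, h6⟩ := result (17 / 6) (-(2 / 3)) (by norm_num)
  have he : (17 / 6 : ℝ) * (s : ℝ) + -(2 / 3) = (17 * (s : ℝ) - 4) / 6 := by ring
  rw [he] at h2 h6
  exact ⟨s, d, P, h1, h2, h3, h4, h5, h6⟩

end Pool.Agent.Results.MP_c7d842_co.CayleyDisproof
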